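import Pool.Agent.Helper19.TGX.Goals

/-!
# Project TGX (MP_a41896_nt), packet DSC: descent of an additive formula
-/

set_option autoImplicit false

open Polynomial

namespace Pool.Agent.Helper85.TGX.DSC

open WeierstrassCurve
open Pool.Agent.Helper29.BL Pool.Agent.Helper42.SG
open Pool.Agent.Helper60.T3 (WL zd IP)
open Pool.Agent.Helper92.TG (mp)
open Pool.Agent.Helper60.TGX (Val AddF)
open Pool.Agent.Helper19.TGX

noncomputable section

theorem ps_sq {F : Type} [Field F] {W : Affine F} (P : W.Point) (hP : P ≠ 0) :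
    ps P ^ 2 = Bf W (xc P) := by
  rcases P with _ | ⟨x, y, h⟩
  · exact absurd rfl hP
  · have he := h.1
    rw [Affine.equation_iff] at he
    show (2 * y + W.a₁ * x + W.a₃) ^ 2 = Bf W x
    unfold Bf WeierstrassCurve.b₂ WeierstrassCurve.b₄ WeierstrassCurve.b₆
    linear_combination 4 * he

theorem ne_zero_of_tr {k F : Type} [Field k] [Field F] [Algebra k F] {W : Affine F}
    (P : W.Point) (hP : Transcendental k (xc P)) : P ≠ 0 := by
  intro h
  rw [h, xc_zero] at hP
  exact hP isAlgebraic_zero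

theorem bp_map {k Ω : Type} [Field k] [Field Ω] [Algebra k Ω] (W : Affine k) :
    bp (WL Ω W) = (bp W).map (algebraMap k Ω) := by
  unfold bp
  have e2 : (WL Ω W).b₂ = algebraMap k Ω W.b₂ := WeierstrassCurve.map_b₂ _ _
  have e4 : (WL Ω W).b₄ = algebraMap k Ω W.b₄ := WeierstrassCurve.map_b₄ _ _
  have e6 : (WL Ω W).b₆ = algebraMap k Ω W.b₆ := WeierstrassCurve.map_b₆ _ _
  rw [e2, e4, e6]
  simp only [Polynomial.map_add, Polynomial.map_mul, Polynomial.map_pow, Polynomial.map_C,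
    Polynomial.map_X, Polynomial.map_ofNat]

theorem hf_map {k Ω : Type} [Field k] [Field Ω] [Algebra k Ω] (W : Affine k) (A B : k[X]) :
    hf (WL Ω W) (A.map (algebraMap k Ω)) (B.map (algebraMap k Ω)) =
      (hf W A B).map (algebraMap k Ω) := by
  unfold hf
  have e2 : (WL Ω W).b₂ = algebraMap k Ω W.b₂ := WeierstrassCurve.map_b₂ _ _
  have e4 : (WL Ω W).b₄ = algebraMap k Ω W.b₄ := WeierstrassCurve.map_b₄ _ _
  have e6 : (WL Ω W).b₆ = algebraMap k Ω W.b₆ := WeierstrassCurve.map_b₆ _ _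
  rw [e2, e4, e6]
  simp only [Polynomial.map_add, Polynomial.map_mul, Polynomial.map_pow, Polynomial.map_C,
    Polynomial.map_ofNat]

theorem val_mp (hMPX : MPX) {k : Type} [Field k] [CharZero k] {W W' : Affine k} {F F' : Type}
    [Field F] [DecidableEq F] [Algebra k F] [Field F'] [DecidableEq F'] [Algebra k F']
    (j : F →ₐ[k] F') {A B C E : k[X]} {P : (WL F W).Point} {R : (WL F W').Point}
    (h : Val A B C E P R) : Val A B C E (mp j P) (mp j R) := by
  obtain ⟨h0, h1, h2⟩ := h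
  obtain ⟨p1, p2, -, -⟩ := hMPX k W F F' j P
  obtain ⟨r1, r2, r3, -⟩ := hMPX k W' F F' j R
  refine ⟨fun h => h0 (r3.1 h), ?_, ?_⟩
  · rw [p1, r1, Polynomial.aeval_algHom_apply, Polynomial.aeval_algHom_apply, ← map_mul, h1]
  · rw [p1, p2, r2, Polynomial.aeval_algHom_apply, Polynomial.aeval_algHom_apply, ← map_mul,
      ← map_mul, h2]

theorem val_unique (hPTS : PTS) {k F : Type} [Field k] [Field F] [CharZero F] [DecidableEq F]
    [Algebra k F] {W W' : Affine k} (hW' : (WL F W').IsElliptic) {A B C E : k[X]} (hB : B ≠ 0)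
    (hE : E ≠ 0) {P : (WL F W).Point} (hP : Transcendental k (xc P)) {R S : (WL F W').Point}
    (hR : Val A B C E P R) (hS : Val A B C E P S) : R = S := by
  obtain ⟨a0, a1, a2⟩ := hR
  obtain ⟨b0, b1, b2⟩ := hS
  have hBx : aeval (xc P) B ≠ 0 := fun h => hP ⟨B, hB, h⟩
  have hEx : aeval (xc P) E ≠ 0 := fun h => hP ⟨E, hE, h⟩
  exact (hPTS F (WL F W') hW').2.1 R S a0 b0 (mul_right_cancel₀ hBx (a1.trans b1.symm))
    (mul_right_cancel₀ hEx (a2.trans b2.symm))

theorem t (hPID : PID) (hEMB2 : EMB2) (hIN1 : IN1) (hIN2 : IN2) (hMPX : MPX) (hPTS : PTS)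
    (hBPF : BPF) : DSC := by
  classical
  intro k Ω _ _ _ _ _ W W' hW hW' A B C E hadd
  have cz : ∀ (F : Type) [Field F] [Algebra k F], CharZero F := fun F _ _ =>
    charZero_of_injective_algebraMap (algebraMap k F).injective
  have el : ∀ (F : Type) [Field F] [Algebra k F], (WL F W).IsElliptic := by
    intro F _ _
    have := hW
    infer_instance
  have el' : ∀ (F : Type) [Field F] [Algebra k F], (WL F W').IsElliptic := by
    intro F _ _
    have := hW'
    infer_instance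
  have : CharZero Ω := cz Ω
  have hinj : Function.Injective (Polynomial.map (algebraMap k Ω)) :=
    Polynomial.map_injective _ (algebraMap k Ω).injective
  obtain ⟨hid, -⟩ := hPID Ω (WL Ω W) (WL Ω W') (el Ω) (el' Ω) _ _ _ _ hadd
  have hidk : E ^ 2 * hf W' A B = C ^ 2 * bp W * B ^ 3 := by
    apply hinj
    rw [hf_map, bp_map] at hid
    rw [Polynomial.map_mul, Polynomial.map_pow, Polynomial.map_mul, Polynomial.map_mul,
      Polynomial.map_pow, Polynomial.map_pow]
    exact hid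
  have hB : B ≠ 0 := fun h => hadd.hB (by rw [h, Polynomial.map_zero])
  have hE : E ≠ 0 := fun h => hadd.hE (by rw [h, Polynomial.map_zero])
  have ex : ∀ (F : Type) [Field F] [DecidableEq F] [Algebra k F] (P : (WL F W).Point),
      Transcendental k (xc P) → ∃ R : (WL F W').Point, Val A B C E P R := by
    intro F _ _ _ P hP
    have := cz F
    have hBx : aeval (xc P) B ≠ 0 := fun h => hP ⟨B, hB, h⟩
    have hEx : aeval (xc P) E ≠ 0 := fun h => hP ⟨E, hE, h⟩
    have hz : (aeval (xc P) A / aeval (xc P) B) * aeval (xc P) B = aeval (xc P) A :=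
      div_mul_cancel₀ _ hBx
    have h1 := (hBPF k W' hW').2.2.2.2.2.1 F (xc P) (aeval (xc P) A / aeval (xc P) B) A B hz
    have h2 := (hBPF k W hW).2.2.2.2.1 F (xc P)
    have h3 := ps_sq P (ne_zero_of_tr P hP)
    have h4 := congrArg (aeval (xc P)) hidk
    rw [map_mul, map_pow, map_mul, map_mul, map_pow, map_pow, h1, h2, ← h3] at h4
    have h5 : (aeval (xc P) C * ps P / aeval (xc P) E) ^ 2 =
        Bf (WL F W') (aeval (xc P) A / aeval (xc P) B) := by
      rw [div_pow, div_eq_iff (pow_ne_zero 2 hEx)]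
      apply mul_right_cancel₀ (pow_ne_zero 3 hBx)
      linear_combination -h4
    obtain ⟨R, hR0, hR1, hR2⟩ := (hPTS F (WL F W') (el' F)).1 _ _ h5
    refine ⟨R, hR0, ?_, ?_⟩
    · rw [hR1, hz]
    · rw [hR2, div_mul_cancel₀ _ hEx]
  refine ⟨?_, hB, hE, ?_, ex, ?_⟩
  · exact (Polynomial.isCoprime_map (algebraMap k Ω)).1 hadd.cop
  · intro h
    apply hadd.nc
    have h1 := congrArg (Polynomial.map (algebraMap k Ω)) h
    rw [Polynomial.map_sub, Polynomial.map_mul, Polynomial.map_mul, ← Polynomial.derivative_map,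
      ← Polynomial.derivative_map, Polynomial.map_zero] at h1
    exact h1
  · intro F _ _ _ P Q R R' R'' hPQ hR hR' hR''
    obtain ⟨L₀, _, _, _, _, P₀, Q₀, h₀, hal₀⟩ := hIN1 k W hW
    obtain ⟨t1, t2, t3, -⟩ := hIN2 k W hW L₀ P₀ Q₀ h₀
    obtain ⟨R₀, hR₀⟩ := ex L₀ P₀ t1
    obtain ⟨R₀', hR₀'⟩ := ex L₀ Q₀ t2
    obtain ⟨R₀'', hR₀''⟩ := ex L₀ (P₀ + Q₀) t3
    have key : R₀'' = R₀ + R₀' := by
      obtain ⟨L₁, _, _, _, _, P₁, Q₁, h₁, -⟩ := hIN1 Ω (WL Ω W) (el Ω)
      let _ : Algebra k L₁ := ((algebraMap Ω L₁).comp (algebraMap k Ω)).toAlgebra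
      have : IsScalarTower k Ω L₁ := IsScalarTower.of_algebraMap_eq (fun _ => rfl)
      have h₁' : AlgebraicIndependent k ![xc P₁, xc Q₁] :=
        h₁.restrictScalars (algebraMap k Ω).injective
      obtain ⟨j, hj1, hj2⟩ := hEMB2 k W hW L₀ L₁ P₀ Q₀ P₁ Q₁ h₀ h₁' hal₀
      have up : ∀ (P : (WL L₁ W).Point) (R : (WL L₁ W').Point), Val A B C E P R →
          Val (k := Ω) (F := L₁) (W := WL Ω W) (W' := WL Ω W') (A.map (algebraMap k Ω))
            (B.map (algebraMap k Ω)) (C.map (algebraMap k Ω)) (E.map (algebraMap k Ω)) P R := by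
        intro P R h
        obtain ⟨a0, a1, a2⟩ := h
        refine ⟨a0, ?_, ?_⟩
        · rw [Polynomial.aeval_map_algebraMap, Polynomial.aeval_map_algebraMap]
          exact a1
        · rw [Polynomial.aeval_map_algebraMap, Polynomial.aeval_map_algebraMap]
          exact a2
      have v1 := val_mp hMPX j hR₀
      have v2 := val_mp hMPX j hR₀'
      have v3 := val_mp hMPX j hR₀''
      have hs : mp j (P₀ + Q₀) = mp j P₀ + mp j Q₀ := map_add _ _ _
      rw [hs] at v3
      rw [hj1] at v1 v3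
      rw [hj2] at v2 v3
      obtain ⟨r1, hr1⟩ : ∃ r : (WL L₁ W').Point, r = mp j R₀ := ⟨_, rfl⟩
      obtain ⟨r2, hr2⟩ : ∃ r : (WL L₁ W').Point, r = mp j R₀' := ⟨_, rfl⟩
      obtain ⟨r3, hr3⟩ : ∃ r : (WL L₁ W').Point, r = mp j R₀'' := ⟨_, rfl⟩
      rw [← hr1] at v1
      rw [← hr2] at v2
      rw [← hr3] at v3
      have h5 : r3 = r1 + r2 :=
        hadd.add L₁ P₁ Q₁ r1 r2 r3 h₁ (up P₁ r1 v1) (up Q₁ r2 v2) (up (P₁ + Q₁) r3 v3)
      have h6 : mp j R₀'' = mp j (R₀ + R₀') := by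
        rw [show mp j (R₀ + R₀') = mp j R₀ + mp j R₀' from map_add _ _ _, ← hr1, ← hr2, ← hr3]
        exact h5
      exact Affine.Point.map_injective j h6
    have := cz (AlgebraicClosure F)
    let i : F →ₐ[k] AlgebraicClosure F := IsScalarTower.toAlgHom k F (AlgebraicClosure F)
    have inj : Function.Injective i := (i : F →+* AlgebraicClosure F).injective
    have xci : ∀ S : (WL F W).Point, xc (mp i S) = i (xc S) := fun S => (hMPX k W F _ i S).1
    have hind : AlgebraicIndependent k ![xc (mp i P), xc (mp i Q)] := by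
      have h1 := hPQ.map' (f := i) inj
      have h2 : (i ∘ ![xc P, xc Q]) = ![xc (mp i P), xc (mp i Q)] := by
        rw [xci, xci]
        funext a
        fin_cases a <;> rfl
      rwa [h2] at h1
    obtain ⟨j, hj1, hj2⟩ := hEMB2 k W hW L₀ (AlgebraicClosure F) P₀ Q₀ (mp i P) (mp i Q) h₀ hind
      hal₀
    obtain ⟨s1, s2, s3, -⟩ := hIN2 k W hW _ (mp i P) (mp i Q) hind
    have hsj : mp j (P₀ + Q₀) = mp j P₀ + mp j Q₀ := map_add _ _ _
    have hsi : mp i (P + Q) = mp i P + mp i Q := map_add _ _ _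
    have v1 := val_mp hMPX j hR₀
    have v2 := val_mp hMPX j hR₀'
    have v3 := val_mp hMPX j hR₀''
    rw [hsj] at v3
    rw [hj1] at v1 v3
    rw [hj2] at v2 v3
    have w1 := val_mp hMPX i hR
    have w2 := val_mp hMPX i hR'
    have w3 := val_mp hMPX i hR''
    rw [hsi] at w3
    have e1 := val_unique hPTS (el' _) hB hE s1 v1 w1
    have e2 := val_unique hPTS (el' _) hB hE s2 v2 w2
    have e3 := val_unique hPTS (el' _) hB hE s3 v3 w3
    have h6 : mp i R'' = mp i (R + R') := by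
      rw [show mp i (R + R') = mp i R + mp i R' from map_add _ _ _, ← e1, ← e2, ← e3, key]
      exact map_add _ _ _
    exact Affine.Point.map_injective i h6

end

end Pool.Agent.Helper85.TGX.DSC
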